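import Pool.Agent.W895.BC.Core
import Pool.Agent.H554R2.Qua.Four

/-!
# The inner product on affine subspaces
-/

set_option autoImplicit false

open Finset

namespace Pool.Agent.W895.BC

open Pool.Agent.H554R2.Sem Pool.Agent.H554R2.Coin Pool.Agent.H554R2.Rnd Pool.Agent.H554R2.Qua
open Pool.Agent.W895.LT (Comparison)

section

variable {p : ℕ} (E : Y p ≃ Fin (4 ^ p))

/-- the sequence of the values of a linear function -/
def zv (a : Y p) : Fin (4 ^ p) → Bool := fun j => dotY a (E.symm j)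

theorem zv_inj : Function.Injective (zv E) := by
  intro a b h
  apply Q4_inj
  intro y
  have := congrFun h (E y)
  simpa [zv] using this

/-- the patterns with the inner product `v` -/
def ipY (v : Bool) : Finset (Fin (4 ^ p) → Bool) :=
  (univ.filter (fun a : Y p => dot a.1 a.2 = v)).image (zv E)

theorem sum_ipY (v : Bool) (F : (Fin (4 ^ p) → Bool) → ℝ) :
    ∑ z ∈ ipY E v, F z = ∑ a ∈ univ.filter (fun a : Y p => dot a.1 a.2 = v), F (zv E a) := by
  unfold ipY
  rw [Finset.sum_image]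
  intro a _ b _ h
  exact zv_inj E h

theorem sgn_pm (b : Bool) : sgn b = 1 ∨ sgn b = -1 := by cases b <;> simp [sgn]

/-- the indicator of a class -/
theorem class_ind (U : Finset (Fin (4 ^ p))) (a0 a : Y p) :
    ∑ u ∈ U.powerset, (∏ i ∈ u, sgn (zv E a0 i)) * ∏ i ∈ u, sgn (zv E a i) =
      if ∀ i ∈ U, zv E a i = zv E a0 i then (2 : ℤ) ^ U.card else 0 := by
  classical
  have h1 : ∏ i ∈ U, (1 + sgn (zv E a0 i) * sgn (zv E a i)) =
      ∑ u ∈ U.powerset, (∏ i ∈ u, sgn (zv E a0 i)) * ∏ i ∈ u, sgn (zv E a i) := by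
    rw [Finset.prod_one_add]
    refine Finset.sum_congr rfl fun s _ => ?_
    rw [Finset.prod_mul_distrib]
  rw [← h1]
  simp_rw [Q4_sgn]
  by_cases h : ∀ i ∈ U, zv E a i = zv E a0 i
  · rw [if_pos h, Finset.prod_congr rfl (fun i hi => if_pos (h i hi)), Finset.prod_const]
  · rw [if_neg h]
    push Not at h
    obtain ⟨i, hi, h2⟩ := h
    exact Finset.prod_eq_zero hi (if_neg h2)

theorem lin (u : Finset (Fin (4 ^ p))) :
    ∃ b : Y p, ∀ a : Y p, ∏ i ∈ u, sgn (zv E a i) = sgn (dotY a b) := Q4_lin E u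

theorem char_sum (b : Y p) : ∑ a : Y p, sgn (dotY a b) =
    if b = (fun _ => false, fun _ => false) then (4 : ℤ) ^ p else 0 := by
  have h1 : ∑ a : Y p, sgn (dotY a b) =
      (∑ a1 : Fin p → Bool, sgn (dot a1 b.1)) * ∑ a2 : Fin p → Bool, sgn (dot a2 b.2) := by
    rw [Fintype.sum_prod_type, Finset.sum_mul]
    refine Finset.sum_congr rfl fun a1 _ => ?_
    rw [Finset.mul_sum]
    refine Finset.sum_congr rfl fun a2 _ => ?_
    unfold dotY
    rw [Q4_xor]
  rw [h1, Q4_char, Q4_char]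
  by_cases h : b = (fun _ => false, fun _ => false)
  · rw [if_pos h, if_pos (by rw [h]), if_pos (by rw [h]), ← mul_pow]
    norm_num
  · rw [if_neg h]
    by_cases h2 : b.1 = fun _ => false
    · rw [if_neg (fun h3 => h (Prod.ext h2 h3)), mul_zero]
    · rw [if_neg h2, zero_mul]

/-- the classes are large -/
theorem class_large (U : Finset (Fin (4 ^ p))) (a0 : Y p) :
    4 ^ p ≤ 2 ^ U.card *
      (univ.filter (fun a : Y p => ∀ i ∈ U, zv E a i = zv E a0 i)).card := by
  classical
  have h1 : ∑ a : Y p, ∑ u ∈ U.powerset, (∏ i ∈ u, sgn (zv E a0 i)) * ∏ i ∈ u, sgn (zv E a i) =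
      (2 : ℤ) ^ U.card * (univ.filter (fun a : Y p => ∀ i ∈ U, zv E a i = zv E a0 i)).card := by
    simp_rw [class_ind]
    rw [← Finset.sum_filter, Finset.sum_const, nsmul_eq_mul, mul_comm]
  rw [Finset.sum_comm] at h1
  have h2 : ∀ u ∈ U.powerset, 0 ≤ ∑ a : Y p,
      (∏ i ∈ u, sgn (zv E a0 i)) * ∏ i ∈ u, sgn (zv E a i) := by
    intro u _
    obtain ⟨b, hb⟩ := lin E u
    simp_rw [hb]
    rw [← Finset.mul_sum, char_sum]
    by_cases h3 : b = (fun _ => false, fun _ => false)
    · rw [if_pos h3, h3, dotY, Q4_dot_zero, Q4_dot_zero]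
      simp [sgn]
    · rw [if_neg h3, mul_zero]
  have h3 : (4 : ℤ) ^ p ≤ ∑ u ∈ U.powerset, ∑ a : Y p,
      (∏ i ∈ u, sgn (zv E a0 i)) * ∏ i ∈ u, sgn (zv E a i) := by
    refine le_trans (le_of_eq ?_) (Finset.single_le_sum (f := fun u => ∑ a : Y p,
      (∏ i ∈ u, sgn (zv E a0 i)) * ∏ i ∈ u, sgn (zv E a i)) h2 (Finset.empty_mem_powerset U))
    simp only [Finset.prod_empty, mul_one, Finset.sum_const, Finset.card_univ, nsmul_eq_mul]
    rw [Fintype.card_prod, Fintype.card_fun, Fintype.card_bool, Fintype.card_fin]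
    push_cast
    rw [← mul_pow]
    norm_num
  rw [h1] at h3
  exact_mod_cast h3

/-- the inner product is nearly balanced on the classes -/
theorem class_bal (U : Finset (Fin (4 ^ p))) (a0 : Y p) :
    |∑ a ∈ univ.filter (fun a : Y p => ∀ i ∈ U, zv E a i = zv E a0 i), sgn (dot a.1 a.2)| ≤
      2 ^ p := by
  classical
  have h1 : ∑ a : Y p, sgn (dot a.1 a.2) *
      ∑ u ∈ U.powerset, (∏ i ∈ u, sgn (zv E a0 i)) * ∏ i ∈ u, sgn (zv E a i) =
      (2 : ℤ) ^ U.card * ∑ a ∈ univ.filter (fun a : Y p => ∀ i ∈ U, zv E a i = zv E a0 i),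
        sgn (dot a.1 a.2) := by
    simp_rw [class_ind, mul_ite, mul_zero]
    rw [← Finset.sum_filter, Finset.mul_sum]
    exact Finset.sum_congr rfl fun a _ => mul_comm _ _
  have h2 : ∑ a : Y p, sgn (dot a.1 a.2) *
      ∑ u ∈ U.powerset, (∏ i ∈ u, sgn (zv E a0 i)) * ∏ i ∈ u, sgn (zv E a i) =
      ∑ u ∈ U.powerset, (∏ i ∈ u, sgn (zv E a0 i)) *
        ∑ a : Y p, sgn (dot a.1 a.2) * ∏ i ∈ u, sgn (zv E a i) := by
    simp_rw [Finset.mul_sum]
    rw [Finset.sum_comm]
    refine Finset.sum_congr rfl fun u _ => Finset.sum_congr rfl fun a _ => ?_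
    ring
  have h3 : ∀ u ∈ U.powerset, |(∏ i ∈ u, sgn (zv E a0 i)) *
        ∑ a : Y p, sgn (dot a.1 a.2) * ∏ i ∈ u, sgn (zv E a i)| ≤ 2 ^ p := by
    intro u _
    obtain ⟨b, hb⟩ := lin E u
    simp_rw [hb]
    rw [Q4_S, abs_mul, abs_mul]
    rcases sgn_pm (dotY a0 b) with h4 | h4 <;> rcases sgn_pm (dot b.2 b.1) with h5 | h5 <;>
      simp [h4, h5]
  have h4 : |(2 : ℤ) ^ U.card * ∑ a ∈ univ.filter (fun a : Y p => ∀ i ∈ U, zv E a i = zv E a0 i),
        sgn (dot a.1 a.2)| ≤ 2 ^ U.card * 2 ^ p := by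
    rw [← h1, h2]
    refine (Finset.abs_sum_le_sum_abs _ _).trans ((Finset.sum_le_sum h3).trans ?_)
    rw [Finset.sum_const, Finset.card_powerset, nsmul_eq_mul]
    push_cast
    exact le_rfl
  rw [abs_mul, abs_of_pos (by positivity : (0 : ℤ) < 2 ^ U.card)] at h4
  exact le_of_mul_le_mul_left h4 (by positivity)

/-- the two halves of a class have about the same size -/
theorem class_half {L : ℕ} (hp : L + 2 ≤ p) (U : Finset (Fin (4 ^ p))) (hU : U.card ≤ L)
    (a0 : Y p) (v : Bool) :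
    (univ.filter (fun a : Y p => (∀ i ∈ U, zv E a i = zv E a0 i) ∧ dot a.1 a.2 = v)).card ≤
      2 * (univ.filter (fun a : Y p =>
        (∀ i ∈ U, zv E a i = zv E a0 i) ∧ dot a.1 a.2 = !v)).card := by
  classical
  obtain ⟨N, hN⟩ : ∃ N : Bool → ℕ, N = fun v => (univ.filter (fun a : Y p =>
    (∀ i ∈ U, zv E a i = zv E a0 i) ∧ dot a.1 a.2 = v)).card := ⟨_, rfl⟩
  have hN' : ∀ v, (univ.filter (fun a : Y p =>
    (∀ i ∈ U, zv E a i = zv E a0 i) ∧ dot a.1 a.2 = v)).card = N v := by
    intro v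
    rw [hN]
  rw [hN', hN']
  have hsum : (univ.filter (fun a : Y p => ∀ i ∈ U, zv E a i = zv E a0 i)).card =
      N false + N true := by
    rw [← hN', ← hN', ← Finset.card_union_of_disjoint]
    · congr 1
      ext a
      simp only [mem_filter, mem_univ, true_and, mem_union]
      constructor
      · intro h
        rcases hb : dot a.1 a.2 with _ | _
        · exact Or.inl ⟨h, rfl⟩
        · exact Or.inr ⟨h, rfl⟩
      · rintro (h | h)
        · exact h.1
        · exact h.1
    · rw [Finset.disjoint_left]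
      intro a h1 h2
      have h3 := (Finset.mem_filter.1 h1).2.2
      have h4 := (Finset.mem_filter.1 h2).2.2
      rw [h3] at h4
      exact Bool.noConfusion h4
  have hdiff : ∑ a ∈ univ.filter (fun a : Y p => ∀ i ∈ U, zv E a i = zv E a0 i),
      sgn (dot a.1 a.2) = (N false : ℤ) - N true := by
    have e : ∀ b : Bool, sgn b = (if b = false then (1 : ℤ) else 0) - if b = true then 1 else 0 := by
      intro b
      cases b <;> simp [sgn]
    simp_rw [e]
    rw [Finset.sum_sub_distrib, Finset.sum_boole, Finset.sum_boole, Finset.filter_filter,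
      Finset.filter_filter, hN', hN']
  have h1 := class_large E U a0
  have h2 := class_bal E U a0
  rw [hsum] at h1
  rw [hdiff] at h2
  have h3 : 2 ^ U.card * (N false + N true) ≤ 2 ^ L * (N false + N true) :=
    Nat.mul_le_mul_right _ (Nat.pow_le_pow_right (by norm_num) hU)
  have h4 : 2 ^ L * (4 * 2 ^ p) ≤ 4 ^ p := by
    have e : (4 : ℕ) ^ p = 2 ^ p * 2 ^ p := by
      rw [← mul_pow]
      norm_num
    have h5 : 2 ^ (L + 2) ≤ 2 ^ p := Nat.pow_le_pow_right (by norm_num) hp
    rw [e]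
    calc 2 ^ L * (4 * 2 ^ p) = 2 ^ (L + 2) * 2 ^ p := by rw [pow_add]; ring
      _ ≤ 2 ^ p * 2 ^ p := Nat.mul_le_mul_right _ h5
  have h5 : 4 * 2 ^ p ≤ N false + N true :=
    Nat.le_of_mul_le_mul_left (h4.trans (h1.trans h3)) (by positivity)
  have h6 := abs_le.1 h2
  have h7 : (4 : ℤ) * 2 ^ p ≤ N false + N true := by exact_mod_cast h5
  cases v
  · have : (N false : ℤ) ≤ 2 * N true := by linarith [h6.1, h6.2]
    exact_mod_cast this
  · have : (N true : ℤ) ≤ 2 * N false := by linarith [h6.1, h6.2]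
    exact_mod_cast this

theorem two_ip {L : ℕ} (hp : L + 2 ≤ p) : Two L 2 (ipY E) := by
  classical
  refine ⟨?_, ?_⟩
  · obtain ⟨q, hq⟩ : ∃ q, p = q + 1 := ⟨p - 1, by omega⟩
    subst hq
    refine ⟨_, Finset.mem_image_of_mem _ (Finset.mem_filter.2 ⟨Finset.mem_univ
      ((fun i => decide (i = 0), fun i => decide (i = 0)) : Y (q + 1)), ?_⟩)⟩
    rw [Q4_dot_unit]
    simp
  · intro v U F hU h0 hF
    have e : ∑ z, (if z ∈ ipY E (!v) then ((2 : ℕ) : ℝ) else 0) * F z =
        2 * ∑ z ∈ ipY E (!v), F z := by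
      simp only [ite_mul, zero_mul]
      rw [Finset.sum_ite_mem, Finset.univ_inter, Finset.mul_sum]
      push_cast
      rfl
    rw [e, sum_ipY, sum_ipY]
    obtain ⟨c, hc⟩ : ∃ c : Y p → Fin (4 ^ p) → Bool, c = fun a j =>
      if j ∈ U then zv E a j else false := ⟨_, rfl⟩
    have hFc : ∀ a, F (zv E a) = F (c a) := by
      intro a
      apply hF
      intro j hj
      rw [hc]
      dsimp only
      rw [if_pos hj]
    have hcc : ∀ a a0, c a = c a0 ↔ ∀ i ∈ U, zv E a i = zv E a0 i := by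
      intro a a0
      rw [hc]
      constructor
      · intro h i hi
        have := congrFun h i
        dsimp only at this
        rwa [if_pos hi, if_pos hi] at this
      · intro h
        funext i
        dsimp only
        split_ifs with hi
        · exact h i hi
        · rfl
    have key : ∀ v', ∑ a ∈ univ.filter (fun a : Y p => dot a.1 a.2 = v'), F (zv E a) =
        ∑ z, ((univ.filter (fun a : Y p => c a = z ∧ dot a.1 a.2 = v')).card : ℝ) * F z := by
      intro v'
      rw [← Finset.sum_fiberwise (univ.filter (fun a : Y p => dot a.1 a.2 = v')) c]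
      refine Finset.sum_congr rfl fun z _ => ?_
      rw [Finset.filter_filter]
      have e1 : univ.filter (fun a : Y p => dot a.1 a.2 = v' ∧ c a = z) =
          univ.filter (fun a : Y p => c a = z ∧ dot a.1 a.2 = v') := by
        apply Finset.filter_congr
        intro a _
        exact and_comm
      rw [e1, ← nsmul_eq_mul, ← Finset.sum_const]
      refine Finset.sum_congr rfl fun a ha => ?_
      rw [hFc, (Finset.mem_filter.1 ha).2.1]
    rw [key, key, Finset.mul_sum]
    apply Finset.sum_le_sum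
    intro z _
    rw [← mul_assoc]
    apply mul_le_mul_of_nonneg_right _ (h0 z)
    by_cases hz : ∃ a0, c a0 = z
    · obtain ⟨a0, rfl⟩ := hz
      simp only [hcc]
      exact_mod_cast class_half E hp U hU a0 v
    · push Not at hz
      have e2 : univ.filter (fun a : Y p => c a = z ∧ dot a.1 a.2 = v) = ∅ := by
        rw [Finset.filter_eq_empty_iff]
        intro a _ h
        exact hz a h.1
      rw [e2, Finset.card_empty, Nat.cast_zero]
      positivity

end

end Pool.Agent.W895.BC
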