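import Pool.Agent.W895.BC.Maj

/-!
# Majority acceptance in one pass against decision lists of nondeterministic programs
-/

set_option autoImplicit false

open Finset

namespace Pool.Agent.W895.BC

open Pool.Agent.H554R2.Sem Pool.Agent.H554R2.Coin Pool.Agent.H554R2.Rnd
open Pool.Agent.W895.LT (Comparison AccIn conj diag)

/-- The output of the decision list on `x` is `c`: the level `i` is a nondeterministic program which
guesses one of the `I i` deterministic programs `P i ω`; the first level which accepts `x` (within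
`τ` queries, for some guess) gives the output `b i`, and `b0` is the output if no level accepts. -/
def ListOut {n ℓ : ℕ} {I : Fin ℓ → ℕ} (P : ∀ i, Fin (I i) → BP (Fin n) Bool) (b : Fin ℓ → Bool)
    (b0 : Bool) (τ : ℕ) (x : Pt n) (c : Bool) : Prop :=
  (∃ i, (∃ ω, AccIn (P i ω) τ x) ∧ (∀ j < i, ∀ ω, ¬ AccIn (P j ω) τ x) ∧ b i = c) ∨
    ((∀ i ω, ¬ AccIn (P i ω) τ x) ∧ b0 = c)

/-- Every decision list with at most `n / D` levels, the level `i` guessing one of `I i` programs
with `2 ^ (n / D)` nodes, where the product of the numbers `I i + 1` is at most `2 ^ (n / D)`,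
differs from `f` for more than `2 ^ (n - n / c)` inputs in time `k n`. -/
def NoList (n k D c : ℕ) (f : Pt n → Bool) : Prop :=
  ∀ τ ≤ k * n, ∀ (ℓ : ℕ) (I : Fin ℓ → ℕ) (P : ∀ i, Fin (I i) → BP (Fin n) Bool)
    (b : Fin ℓ → Bool) (b0 : Bool), ℓ ≤ n / D → ∏ i, (I i + 1) ≤ 2 ^ (n / D) →
    (∀ i ω, Fintype.card (P i ω).State ≤ 2 ^ (n / D)) →
    2 ^ n < 2 ^ (n / c) * Nat.card {x // ¬ ListOut P b b0 τ x (f x)}

theorem noList_mono {n k k' D D' c c' : ℕ} {f : Pt n → Bool} (hk : k ≤ k') (hD : D' ≤ D)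
    (hD' : 1 ≤ D') (hc : c ≤ c') (hc0 : 1 ≤ c) (h : NoList n k' D' c' f) : NoList n k D c f := by
  intro τ hτ ℓ I P b b0 hℓ hI hP
  have h1 : n / D ≤ n / D' := Nat.div_le_div_left hD hD'
  have h2 : 2 ^ (n / D) ≤ 2 ^ (n / D') := Nat.pow_le_pow_right (by norm_num) h1
  have h3 := h τ (hτ.trans (Nat.mul_le_mul_right n hk)) ℓ I P b b0 (hℓ.trans h1) (hI.trans h2)
    (fun i ω => (hP i ω).trans h2)
  exact h3.trans_le (Nat.mul_le_mul_right _
    (Nat.pow_le_pow_right (by norm_num) (Nat.div_le_div_left hc hc0)))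

open Classical in
/-- the counting argument for decision lists -/
theorem list_count {α : Type} [Fintype α] {ℓ : ℕ} (I : Fin ℓ → ℕ) (acc : ∀ i, Fin (I i) → Finset α)
    (b : Fin ℓ → Bool) (b0 : Bool) (f : α → Bool) (X : Bool → Finset α) (Err : Finset α)
    (hX : ∀ v, ∀ x ∈ X v, f x = v)
    (hout : ∀ x, x ∉ Err → (∃ i, (∃ ω, x ∈ acc i ω) ∧ (∀ j < i, ∀ ω, x ∉ acc j ω) ∧ b i = f x) ∨
      ((∀ i ω, x ∉ acc i ω) ∧ b0 = f x))
    (A E : ℝ) (hA : 2 ≤ A) (hE : 0 ≤ E)
    (hcmp' : ∀ i ω v, (Nat.card {x // x ∈ acc i ω ∧ x ∈ X v} : ℝ) ≤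
      A * (Nat.card {x // x ∈ acc i ω ∧ x ∈ X (!v)} : ℝ) + E) :
    ((X (!b0)).card : ℝ) ≤ A ^ ℓ * (∏ i, ((I i : ℝ) + 1)) * (E + Err.card) := by
  have hcmp : ∀ i ω v, ((univ.filter (fun x => x ∈ acc i ω ∧ x ∈ X v)).card : ℝ) ≤
      A * ((univ.filter (fun x => x ∈ acc i ω ∧ x ∈ X (!v))).card : ℝ) + E := by
    intro i ω v
    have h := hcmp' i ω v
    rwa [Nat.card_eq_fintype_card, Fintype.card_subtype, Nat.card_eq_fintype_card,
      Fintype.card_subtype] at h
  -- on the sets `X` the first accepting level gives the output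
  have hfirst : ∀ (i : Fin ℓ) (x : α), x ∉ Err → (∃ ω, x ∈ acc i ω) →
      (∀ j < i, ∀ ω, x ∉ acc j ω) → b i = f x := by
    intro i x h0 h1 h2
    rcases hout x h0 with ⟨i', h3, h4, h5⟩ | ⟨h3, -⟩
    · rcases lt_trichotomy i i' with h | h | h
      · obtain ⟨ω, hω⟩ := h1
        exact absurd hω (h4 i h ω)
      · subst h
        exact h5
      · obtain ⟨ω, hω⟩ := h3
        exact absurd hω (h2 i' h ω)
    · obtain ⟨ω, hω⟩ := h1
      exact absurd hω (h3 i ω)
  obtain ⟨T, hT⟩ : ∃ T : ℕ → Finset α, T = fun i => univ.filter (fun x =>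
    (x ∈ X true ∨ x ∈ X false) ∧ ∃ j : Fin ℓ, j.val < i ∧ ∃ ω, x ∈ acc j ω) := ⟨_, rfl⟩
  have hmem : ∀ i x, x ∈ T i ↔ (x ∈ X true ∨ x ∈ X false) ∧
      ∃ j : Fin ℓ, j.val < i ∧ ∃ ω, x ∈ acc j ω := by
    intro i x
    rw [hT]
    simp
  have hXm : ∀ v x, x ∈ X v → x ∈ X true ∨ x ∈ X false := by
    intro v x h
    cases v
    · exact Or.inr h
    · exact Or.inl h
  obtain ⟨e, he⟩ : ∃ e : ℝ, e = (Err.card : ℝ) := ⟨_, rfl⟩
  have he0 : 0 ≤ e := by rw [he]; exact Nat.cast_nonneg _
  rw [← he]
  have hstep : ∀ i : Fin ℓ, ((T (i.val + 1)).card : ℝ) ≤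
      (1 + A * I i) * ((T i.val).card + e) + I i * E := by
    intro i
    have h1 : T (i.val + 1) ⊆ (T i.val ∪ Err) ∪ (univ : Finset (Fin (I i))).biUnion
        (fun ω => univ.filter (fun x => x ∈ acc i ω ∧ x ∈ X (b i))) := by
      intro x hx
      rw [Finset.mem_union, Finset.mem_union]
      by_cases h2 : x ∈ T i.val
      · exact Or.inl (Or.inl h2)
      · by_cases h20 : x ∈ Err
        · exact Or.inl (Or.inr h20)
        right
        rw [hmem] at hx h2
        obtain ⟨h3, j, h4, ω, h5⟩ := hx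
        have h6 : ∀ j' : Fin ℓ, j' < i → ∀ ω, x ∉ acc j' ω := by
          intro j' hj' ω' hω'
          exact h2 ⟨h3, j', hj', ω', hω'⟩
        have h7 : j = i := by
          apply Fin.ext
          by_contra h8
          exact h6 j (show j.val < i.val by omega) ω h5
        subst h7
        have h8 := hfirst j x h20 ⟨ω, h5⟩ h6
        have h9 : x ∈ X (b j) := by
          rcases h3 with h3 | h3
          · have := hX true x h3
            rw [h8, this]
            exact h3
          · have := hX false x h3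
            rw [h8, this]
            exact h3
        rw [Finset.mem_biUnion]
        exact ⟨ω, Finset.mem_univ _, Finset.mem_filter.2 ⟨Finset.mem_univ _, h5, h9⟩⟩
    have h2 : (T (i.val + 1)).card ≤ ((T i.val).card + Err.card) +
        ∑ ω, (univ.filter (fun x => x ∈ acc i ω ∧ x ∈ X (b i))).card :=
      (Finset.card_le_card h1).trans ((Finset.card_union_le _ _).trans
        (Nat.add_le_add (Finset.card_union_le _ _) Finset.card_biUnion_le))
    have h3 : ∀ ω, ((univ.filter (fun x => x ∈ acc i ω ∧ x ∈ X (b i))).card : ℝ) ≤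
        A * ((T i.val).card + e) + E := by
      intro ω
      refine (hcmp i ω (b i)).trans ?_
      have h4 : univ.filter (fun x => x ∈ acc i ω ∧ x ∈ X (!(b i))) ⊆ T i.val ∪ Err := by
        intro x hx
        rw [Finset.mem_filter] at hx
        rw [Finset.mem_union]
        by_cases h20 : x ∈ Err
        · exact Or.inr h20
        left
        rw [hmem]
        refine ⟨hXm _ _ hx.2.2, ?_⟩
        by_contra h5
        push Not at h5
        have h6 := hfirst i x h20 ⟨ω, hx.2.1⟩ (fun j hj ω' => h5 j hj ω')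
        have h7 := hX _ x hx.2.2
        rw [← h6] at h7
        cases h8 : b i <;> rw [h8] at h7 <;> simp at h7
      have h5 : ((univ.filter (fun x => x ∈ acc i ω ∧ x ∈ X (!(b i)))).card : ℝ) ≤
          (T i.val).card + e := by
        rw [he]
        exact_mod_cast (Finset.card_le_card h4).trans (Finset.card_union_le _ _)
      have h6 : A * ((univ.filter (fun x => x ∈ acc i ω ∧ x ∈ X (!(b i)))).card : ℝ) ≤
          A * ((T i.val).card + e) := mul_le_mul_of_nonneg_left h5 (by linarith)
      linarith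
    have h4 : ((T (i.val + 1)).card : ℝ) ≤ ((T i.val).card + e) +
        ∑ ω, ((univ.filter (fun x => x ∈ acc i ω ∧ x ∈ X (b i))).card : ℝ) := by
      rw [he]
      exact_mod_cast h2
    have h5 := Finset.sum_le_sum (s := (univ : Finset (Fin (I i)))) (fun ω _ => h3 ω)
    rw [Finset.sum_const, Finset.card_univ, Fintype.card_fin, nsmul_eq_mul] at h5
    linarith
  have hind : ∀ i ≤ ℓ, ((T i).card : ℝ) + (E + e) ≤
      (∏ j ∈ univ.filter (fun j : Fin ℓ => j.val < i), (A * ((I j : ℝ) + 1))) * (E + e) := by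
    intro i
    induction i with
    | zero =>
      intro _
      have h1 : T 0 = ∅ := by
        rw [Finset.eq_empty_iff_forall_notMem]
        intro x hx
        rw [hmem] at hx
        obtain ⟨-, j, h2, -⟩ := hx
        omega
      have h2 : univ.filter (fun j : Fin ℓ => j.val < 0) = ∅ := by
        rw [Finset.filter_eq_empty_iff]
        intro j _
        omega
      rw [h1, h2, Finset.prod_empty]
      simp
    | succ i ih =>
      intro hi
      have h1 := ih (by omega)
      have h2 := hstep ⟨i, by omega⟩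
      have h3 : univ.filter (fun j : Fin ℓ => j.val < i + 1) =
          insert ⟨i, by omega⟩ (univ.filter (fun j : Fin ℓ => j.val < i)) := by
        ext j
        simp only [mem_filter, mem_univ, true_and, mem_insert, Fin.ext_iff]
        omega
      rw [h3, Finset.prod_insert (by simp), mul_assoc]
      simp only at h2
      obtain ⟨a, ha⟩ : ∃ a : ℝ, a = (I ⟨i, by omega⟩ : ℝ) := ⟨_, rfl⟩
      rw [← ha] at h2 ⊢
      have ha0 : 0 ≤ a := by rw [ha]; exact Nat.cast_nonneg _
      have hT0 : (0 : ℝ) ≤ (T i).card := Nat.cast_nonneg _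
      have h4 : ((T (i + 1)).card : ℝ) + (E + e) ≤ (A * (a + 1)) * ((T i).card + (E + e)) := by
        nlinarith [mul_nonneg ha0 hE, mul_nonneg ha0 hT0, mul_nonneg (by linarith : 0 ≤ A - 2) hE,
          mul_nonneg (by linarith : 0 ≤ A - 2) hT0, mul_nonneg (by linarith : 0 ≤ A - 2) he0,
          mul_nonneg (mul_nonneg (by linarith : 0 ≤ A - 2) ha0) hE]
      exact h4.trans (mul_le_mul_of_nonneg_left h1 (by
        exact mul_nonneg (by linarith) (by linarith)))
  have hfin := hind ℓ le_rfl
  have h1 : univ.filter (fun j : Fin ℓ => j.val < ℓ) = univ := by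
    rw [Finset.filter_true_of_mem]
    intro j _
    exact j.2
  rw [h1, Finset.prod_mul_distrib, Finset.prod_const, Finset.card_univ, Fintype.card_fin] at hfin
  have h2 : X (!b0) ⊆ T ℓ ∪ Err := by
    intro x hx
    rw [Finset.mem_union]
    by_cases h20 : x ∈ Err
    · exact Or.inr h20
    left
    rw [hmem]
    refine ⟨hXm _ _ hx, ?_⟩
    by_contra h3
    push Not at h3
    rcases hout x h20 with ⟨i, ⟨ω, h4⟩, -, -⟩ | ⟨-, h4⟩
    · exact h3 i i.2 ω h4
    · have h5 := hX _ x hx
      rw [← h4] at h5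
      cases h6 : b0 <;> rw [h6] at h5 <;> simp at h5
  have h3 : ((X (!b0)).card : ℝ) ≤ (T ℓ).card + e := by
    rw [he]
    exact_mod_cast (Finset.card_le_card h2).trans (Finset.card_union_le _ _)
  linarith

/-- fixed parameters -/
theorem list_core (k c : ℕ) (hc : 1 ≤ c) : ∃ D : ℕ, 1 ≤ D ∧ ∀ n ≥ D, ∃ f : Pt n → Bool,
    OnePassPP n D f ∧ NoList n k D c f := by
  classical
  obtain ⟨K, hK⟩ : ∃ K : ℕ, K = 1 * k + 1 := ⟨_, rfl⟩
  obtain ⟨L, hL⟩ := base K (by omega)
  obtain ⟨d, hd⟩ : ∃ d, d = 2 * L := ⟨_, rfl⟩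
  obtain ⟨C, hC, hbase⟩ := hL (2 * d + 1)
  obtain ⟨m, hm⟩ : ∃ m : ℕ, m = 16 * (K + 1) ^ 2 := ⟨_, rfl⟩
  obtain ⟨B, hB⟩ : ∃ B : ℕ, B = 2 ^ (2 * d + 1) * (1 + 2) + 1 := ⟨_, rfl⟩
  obtain ⟨N1, hN1⟩ := exp_large (2 * C) (by omega) (4 ^ (1 + 1) * (k + 4))
  obtain ⟨N2, hN2⟩ := exp_large (2 * C) (by omega) (2 * B)
  obtain ⟨N3, hN3⟩ := exp_large (2 * c) (by omega) (2 ^ (2 * d + 4))
  obtain ⟨D, hD⟩ : ∃ D : ℕ, D = C + N1 + N2 + N3 + 2 * C * (m + 1) + 2 * c * (m + 1) +
    (2 * d + 1) := ⟨_, rfl⟩
  refine ⟨D, by omega, fun n hn => ?_⟩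
  have hn0 : 1 ≤ n := by omega
  obtain ⟨p, hp⟩ := hbase n (by omega)
  obtain ⟨V, hV⟩ : ∃ V : ℝ, V = (2 : ℝ) ^ n / 2 ^ (2 * d + 1) := ⟨_, rfl⟩
  have hV0 : 0 < V := by rw [hV]; positivity
  have hY := two_mid (L := L) (d := d) (by omega)
  obtain ⟨f, hf⟩ : ∃ f : Pt n → Bool, f = fun x => decide (d + 1 ≤ wt (p x)) := ⟨_, rfl⟩
  refine ⟨f, ?_, ?_⟩
  · rw [hf]
    choose V l hV1 hV2 hV3 using hp.prog
    refine ⟨2 * d + 1, V, by omega, fun j => ⟨(hV1 j).trans (Nat.mul_le_mul_right n (by omega)),
      l j, hV2 j, fun x => ⟨_, hV3 j x⟩⟩, fun x => ?_⟩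
    have e : ∀ b : Bool, Nat.card {j // ∃ l, (V j).Comp x l b} =
        (univ.filter (fun j => p x j = b)).card := by
      intro b
      rw [Nat.card_eq_fintype_card, Fintype.card_subtype]
      congr 1
      ext j
      simp only [mem_filter, mem_univ, true_and]
      constructor
      · rintro ⟨l', hl'⟩
        exact R25_comp_det _ x (hV3 j x) hl'
      · intro h2
        have h3 := hV3 j x
        rw [h2] at h3
        exact ⟨_, h3⟩
    have h2 := wt_add (p x)
    have h4 : wt (p x) = (univ.filter (fun j => p x j = true)).card := rfl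
    have h5 : ∀ b : Bool, b = decide (d + 1 ≤ wt (p x)) →
        2 * d + 1 < 2 * Nat.card {j // ∃ l, (V j).Comp x l b} := by
      intro b hb
      rw [e]
      by_cases h3 : d + 1 ≤ wt (p x)
      · rw [decide_eq_true h3] at hb
        subst hb
        omega
      · rw [decide_eq_false h3] at hb
        subst hb
        omega
    exact h5 _ rfl
  · intro τ hτ ℓ I P b b0 hℓ hI hP
    obtain ⟨Err, hErr⟩ : ∃ Err : Finset (Pt n), Err =
      univ.filter (fun x => ¬ ListOut P b b0 τ x (f x)) := ⟨_, rfl⟩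
    have hErrc : Nat.card {x // ¬ ListOut P b b0 τ x (f x)} = Err.card := by
      rw [hErr, Nat.card_eq_fintype_card, Fintype.card_subtype]
    rw [hErrc]
    obtain ⟨X, hX⟩ : ∃ X : Bool → Finset (Pt n), X = fun v =>
      univ.filter (fun x => p x ∈ midY d v) := ⟨_, rfl⟩
    have hfib : ∀ (𝒜 : Finset (Fin (2 * d + 1) → Bool)) (U : BP (Fin n) Bool),
        ∑ z ∈ 𝒜, cnt p U z =
        ((univ.filter (fun x => (∃ l, U.Comp x l true) ∧ p x ∈ 𝒜)).card : ℝ) := by
      intro 𝒜 U
      unfold cnt
      rw [← Nat.cast_sum]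
      congr 1
      rw [← Finset.card_biUnion]
      · congr 1
        ext x
        simp only [mem_biUnion, mem_filter, mem_univ, true_and]
        constructor
        · rintro ⟨z, hz, h1, rfl⟩
          exact ⟨h1, hz⟩
        · rintro ⟨h1, h2⟩
          exact ⟨p x, h2, h1, rfl⟩
      · intro z _ z' _ hzz
        rw [Function.onFun, Finset.disjoint_left]
        intro x hx hx'
        rw [Finset.mem_filter] at hx hx'
        exact hzz (hx.2.2.symm.trans hx'.2.2)
    have hmain := list_count I (fun i ω => univ.filter (fun x => AccIn (P i ω) τ x)) b b0 f X Err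
      (by
        intro v x hx
        rw [hX, Finset.mem_filter] at hx
        have h1 := hx.2
        simp only [midY, Finset.mem_filter, Finset.mem_univ, true_and] at h1
        rw [hf]
        cases v
        · simp only [decide_eq_false_iff_not, h1]
          simp
        · simp only [decide_eq_true_iff, h1]
          simp)
      (by
        intro x hx
        have h1 : ListOut P b b0 τ x (f x) := by
          by_contra h2
          exact hx (by rw [hErr]; exact Finset.mem_filter.2 ⟨Finset.mem_univ _, h2⟩)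
        unfold ListOut at h1
        simpa using h1)
      (m : ℝ) (B * V / 2 ^ (n / C)) (by
        rw [hm]
        push_cast
        nlinarith [Nat.cast_nonneg (α := ℝ) K]) (by positivity)
      (by
        intro i ω v
        obtain ⟨U, hU1, hU2, hU3⟩ := conj k 1 τ hτ (fun _ : Unit => P i ω) (2 ^ (n / D))
          (fun _ => hP i ω)
        have hsize : Fintype.card (U fun _ => ()).State ≤ 2 ^ (n / C) := by
          refine (hU1 _).trans ?_
          have h1 : 4 ^ (1 + 1) * (k + 4) * (n + 1) ≤ 2 ^ (n / (2 * C)) := hN1 n (by omega)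
          have h2 : 1 ≤ 2 ^ (n / D) := Nat.one_le_two_pow
          have h6 : 2 ^ (n / D) ≤ 2 ^ (n / (2 * C)) :=
            Nat.pow_le_pow_right (by norm_num) (Nat.div_le_div_left (by
              rw [hD]
              have : 2 * C ≤ 2 * C * (m + 1) := Nat.le_mul_of_pos_right _ (by omega)
              omega) (by omega))
          have h7 : 2 ^ (n / (2 * C)) * 2 ^ (n / (2 * C)) ≤ 2 ^ (n / C) := by
            rw [← pow_add]
            apply Nat.pow_le_pow_right (by norm_num)
            rw [Nat.le_div_iff_mul_le (by omega)]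
            have := Nat.mul_div_le n (2 * C)
            nlinarith
          calc 4 ^ (1 + 1) * (2 ^ (n / D) * (k * n + 2) + n + 3) ≤
              4 ^ (1 + 1) * (2 ^ (n / D) * ((k + 4) * (n + 1))) := by
                apply Nat.mul_le_mul_left
                have h3 : (k + 4) * (n + 1) = k * n + k + 4 * n + 4 := by ring
                rw [h3]
                have h4 : 2 ^ (n / D) * (k * n + k + 4 * n + 4) =
                  2 ^ (n / D) * (k * n + 2) + 2 ^ (n / D) * (k + 4 * n + 2) := by ring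
                rw [h4]
                have h5 : k + 4 * n + 2 ≤ 2 ^ (n / D) * (k + 4 * n + 2) :=
                  Nat.le_mul_of_pos_left _ h2
                omega
            _ = 2 ^ (n / D) * (4 ^ (1 + 1) * (k + 4) * (n + 1)) := by ring
            _ ≤ 2 ^ (n / (2 * C)) * 2 ^ (n / (2 * C)) := Nat.mul_le_mul h6 h1
            _ ≤ _ := h7
        obtain ⟨β, hβ⟩ : ∃ β : (Fin (2 * d + 1) → Bool) → ℝ, β = fun z =>
          if z ∈ midY d (!v) then ((2 : ℕ) : ℝ) else 0 := ⟨_, rfl⟩
        have hβ0 : ∀ z, 0 ≤ β z := by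
          intro z
          rw [hβ]
          dsimp only
          split_ifs
          · exact Nat.cast_nonneg _
          · exact le_rfl
        have hcmp := hY.cmp v
        rw [← hβ] at hcmp
        have h1 := hp.comp (midY d v) β hβ0 hcmp (U fun _ => ()) hsize
          (fun x => by rw [hK]; exact hU2 _ x)
        rw [← hV] at h1
        have h2 : ∑ z, β z * cnt p (U fun _ => ()) z = 2 * ∑ z ∈ midY d (!v),
            cnt p (U fun _ => ()) z := by
          rw [hβ]
          simp only [ite_mul, zero_mul]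
          rw [Finset.sum_ite_mem, Finset.univ_inter, Finset.mul_sum]
          push_cast
          rfl
        rw [h2, hfib, hfib] at h1
        have h3 : ∀ v', univ.filter (fun x => (∃ l, (U fun _ => ()).Comp x l true) ∧
            p x ∈ midY d v') = univ.filter (fun x => x ∈ univ.filter (fun x =>
              AccIn (P i ω) τ x) ∧ x ∈ X v') := by
          intro v'
          rw [hX]
          ext x
          simp only [mem_filter, mem_univ, true_and]
          rw [hU3]
          simp
        rw [h3, h3] at h1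
        rw [Nat.card_eq_fintype_card, Fintype.card_subtype, Nat.card_eq_fintype_card,
          Fintype.card_subtype]
        refine h1.trans ?_
        have h4 : (((midY d v).card : ℝ) + ∑ z, β z + 1) * V / 2 ^ (n / C) ≤
            B * V / 2 ^ (n / C) := by
          apply div_le_div_of_nonneg_right _ (by positivity)
          apply mul_le_mul_of_nonneg_right _ hV0.le
          have h5 : ((midY d v).card : ℝ) ≤ 2 ^ (2 * d + 1) := by
            have : (midY d v).card ≤ Fintype.card (Fin (2 * d + 1) → Bool) :=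
              Finset.card_le_univ _
            rw [Fintype.card_fun, Fintype.card_bool, Fintype.card_fin] at this
            exact_mod_cast this
          have h6 : ∑ z, β z ≤ 2 ^ (2 * d + 1) * 2 := by
            calc ∑ z, β z ≤ ∑ _z : Fin (2 * d + 1) → Bool, (2 : ℝ) := by
                  apply Finset.sum_le_sum
                  intro z _
                  rw [hβ]
                  dsimp only
                  split_ifs
                  · norm_num
                  · norm_num
              _ = _ := by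
                  rw [Finset.sum_const, Finset.card_univ, Fintype.card_fun, Fintype.card_bool,
                    Fintype.card_fin, nsmul_eq_mul]
                  push_cast
                  rfl
          rw [hB]
          push_cast
          linarith
        have h5 : 8 * ((K : ℝ) + 1) ^ 2 * (2 * ((univ.filter (fun x => x ∈ univ.filter (fun x =>
              AccIn (P i ω) τ x) ∧ x ∈ X (!v))).card : ℝ)) =
            (m : ℝ) * ((univ.filter (fun x => x ∈ univ.filter (fun x =>
              AccIn (P i ω) τ x) ∧ x ∈ X (!v))).card : ℝ) := by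
          rw [hm]
          push_cast
          ring
        rw [h5]
        linarith)
    -- the set is large
    have hlarge : 3 / 4 * V ≤ ((X (!b0)).card : ℝ) := by
      have hne : (midY d (!b0)).Nonempty := by
        rcases hv : (!b0) with _ | _
        · refine ⟨fun j => decide (j.val < d), ?_⟩
          simp only [midY, mem_filter, mem_univ, true_and]
          unfold wt
          have e : univ.filter (fun j : Fin (2 * d + 1) => decide (j.val < d) = true) =
              (univ.filter (fun j : Fin (2 * d + 1) => j.val < d)) := by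
            ext j; simp
          rw [e, Fin.card_filter_val_lt]
          simp
          omega
        · exact hY.ne
      obtain ⟨z, hz⟩ := hne
      have h1 := hp.low z
      rw [← hV] at h1
      refine h1.trans ?_
      have h2 : (univ.filter (fun x => p x = z)).card ≤ (X (!b0)).card := by
        apply Finset.card_le_card
        intro x hx
        rw [hX, Finset.mem_filter]
        refine ⟨Finset.mem_univ _, ?_⟩
        rw [(Finset.mem_filter.1 hx).2]
        exact hz
      exact_mod_cast h2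
    -- the bound is small
    have hprod : (m : ℝ) ^ ℓ * (∏ i, ((I i : ℝ) + 1)) ≤ 2 ^ (n / (2 * C)) := by
      have h1 : m ^ ℓ * ∏ i, (I i + 1) ≤ 2 ^ (n / (2 * C)) := by
        have h2 : m ^ ℓ ≤ 2 ^ (m * (n / D)) := by
          calc m ^ ℓ ≤ (2 ^ m) ^ ℓ := Nat.pow_le_pow_left Nat.lt_two_pow_self.le _
            _ = 2 ^ (m * ℓ) := by rw [← pow_mul]
            _ ≤ _ := Nat.pow_le_pow_right (by norm_num) (Nat.mul_le_mul_left _ hℓ)
        calc m ^ ℓ * ∏ i, (I i + 1) ≤ 2 ^ (m * (n / D)) * 2 ^ (n / D) := Nat.mul_le_mul h2 hI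
          _ = 2 ^ ((m + 1) * (n / D)) := by rw [← pow_add]; ring_nf
          _ ≤ _ := by
            apply Nat.pow_le_pow_right (by norm_num)
            rw [Nat.le_div_iff_mul_le (by omega)]
            have h3 : 2 * C * (m + 1) * (n / D) ≤ n :=
              (Nat.mul_le_mul_right _ (by omega)).trans (Nat.mul_div_le n D)
            calc (m + 1) * (n / D) * (2 * C) = 2 * C * (m + 1) * (n / D) := by ring
              _ ≤ n := h3
      exact_mod_cast h1
    have h2B : 2 * (B : ℝ) ≤ 2 ^ (n / (2 * C)) := by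
      have h1 : 2 * B * (n + 1) ≤ 2 ^ (n / (2 * C)) := hN2 n (by omega)
      have h2 : 2 * B ≤ 2 ^ (n / (2 * C)) := (Nat.le_mul_of_pos_right _ (by omega)).trans h1
      exact_mod_cast h2
    have h7 : ((2 : ℝ) ^ (n / (2 * C))) * 2 ^ (n / (2 * C)) ≤ 2 ^ (n / C) := by
      rw [← pow_add]
      apply pow_le_pow_right₀ (by norm_num)
      rw [Nat.le_div_iff_mul_le (by omega)]
      have := Nat.mul_div_le n (2 * C)
      nlinarith
    have hprod' : (m : ℝ) ^ ℓ * (∏ i, ((I i : ℝ) + 1)) ≤ 2 ^ (n / (2 * c)) := by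
      have h1 : m ^ ℓ * ∏ i, (I i + 1) ≤ 2 ^ (n / (2 * c)) := by
        have h2 : m ^ ℓ ≤ 2 ^ (m * (n / D)) := by
          calc m ^ ℓ ≤ (2 ^ m) ^ ℓ := Nat.pow_le_pow_left Nat.lt_two_pow_self.le _
            _ = 2 ^ (m * ℓ) := by rw [← pow_mul]
            _ ≤ _ := Nat.pow_le_pow_right (by norm_num) (Nat.mul_le_mul_left _ hℓ)
        calc m ^ ℓ * ∏ i, (I i + 1) ≤ 2 ^ (m * (n / D)) * 2 ^ (n / D) := Nat.mul_le_mul h2 hI
          _ = 2 ^ ((m + 1) * (n / D)) := by rw [← pow_add]; ring_nf
          _ ≤ _ := by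
            apply Nat.pow_le_pow_right (by norm_num)
            rw [Nat.le_div_iff_mul_le (by omega)]
            have h3 : 2 * c * (m + 1) * (n / D) ≤ n :=
              (Nat.mul_le_mul_right _ (by omega)).trans (Nat.mul_div_le n D)
            calc (m + 1) * (n / D) * (2 * c) = 2 * c * (m + 1) * (n / D) := by ring
              _ ≤ n := h3
      exact_mod_cast h1
    have h8 : (m : ℝ) ^ ℓ * (∏ i, ((I i : ℝ) + 1)) * (B * V / 2 ^ (n / C)) ≤ 1 / 2 * V := by
      have h9 : (0 : ℝ) < 2 ^ (n / C) := by positivity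
      rw [← mul_div_assoc, div_le_iff₀ h9]
      have h10 : (m : ℝ) ^ ℓ * (∏ i, ((I i : ℝ) + 1)) * (B * V) ≤
          2 ^ (n / (2 * C)) * (B * V) :=
        mul_le_mul_of_nonneg_right hprod (by positivity)
      have h11 : (2 : ℝ) ^ (n / (2 * C)) * (B * V) ≤ 2 ^ (n / (2 * C)) *
          (1 / 2 * 2 ^ (n / (2 * C)) * V) := by
        apply mul_le_mul_of_nonneg_left _ (by positivity)
        apply mul_le_mul_of_nonneg_right _ hV0.le
        linarith
      have h12 : (2 : ℝ) ^ (n / (2 * C)) * (1 / 2 * 2 ^ (n / (2 * C)) * V) =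
          1 / 2 * V * (2 ^ (n / (2 * C)) * 2 ^ (n / (2 * C))) := by ring
      rw [h12] at h11
      exact h10.trans (h11.trans (mul_le_mul_of_nonneg_left h7 (by positivity)))
    -- many errors
    obtain ⟨R, hR⟩ : ∃ R : ℝ, R = (m : ℝ) ^ ℓ * (∏ i, ((I i : ℝ) + 1)) := ⟨_, rfl⟩
    rw [← hR] at hmain h8 hprod' 
    have he0 : (0 : ℝ) ≤ Err.card := Nat.cast_nonneg _
    have h9 : 1 / 4 * V ≤ R * Err.card := by linarith
    have h10 : R * Err.card ≤ 2 ^ (n / (2 * c)) * Err.card :=
      mul_le_mul_of_nonneg_right hprod' he0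
    have h11 : (2 : ℝ) ^ n = V * 2 ^ (2 * d + 1) := by rw [hV]; field_simp
    have h12 : (2 : ℝ) ^ n < 2 ^ (n / c) * Err.card := by
      have h13 : (2 : ℝ) ^ (2 * d + 4) ≤ 2 ^ (n / (2 * c)) := by
        have h14 : 2 ^ (2 * d + 4) * (n + 1) ≤ 2 ^ (n / (2 * c)) := hN3 n (by omega)
        have h15 : 2 ^ (2 * d + 4) ≤ 2 ^ (n / (2 * c)) :=
          (Nat.le_mul_of_pos_right _ (by omega)).trans h14
        exact_mod_cast h15
      have h16 : ((2 : ℝ) ^ (n / (2 * c))) * 2 ^ (n / (2 * c)) ≤ 2 ^ (n / c) := by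
        rw [← pow_add]
        apply pow_le_pow_right₀ (by norm_num)
        rw [Nat.le_div_iff_mul_le (by omega)]
        have := Nat.mul_div_le n (2 * c)
        nlinarith
      have h17 : V ≤ 4 * (2 ^ (n / (2 * c)) * Err.card) := by linarith
      have h18 : (2 : ℝ) ^ (2 * d + 4) = 8 * 2 ^ (2 * d + 1) := by
        rw [show 2 * d + 4 = (2 * d + 1) + 3 by ring, pow_add]
        ring
      have h19 : 0 < (2 : ℝ) ^ (2 * d + 1) := by positivity
      have h20 : V * (2 ^ (2 * d + 4)) ≤ 4 * (2 ^ (n / (2 * c)) * Err.card) * 2 ^ (n / (2 * c)) :=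
        mul_le_mul h17 h13 (pow_nonneg (by norm_num) _)
          (mul_nonneg (by norm_num) (mul_nonneg (pow_nonneg (by norm_num) _) he0))
      have h21 : 4 * (2 ^ (n / (2 * c)) * (Err.card : ℝ)) * 2 ^ (n / (2 * c)) =
          4 * Err.card * (2 ^ (n / (2 * c)) * 2 ^ (n / (2 * c))) := by ring
      have h22 : 4 * (Err.card : ℝ) * (2 ^ (n / (2 * c)) * 2 ^ (n / (2 * c))) ≤
          4 * Err.card * 2 ^ (n / c) :=
        mul_le_mul_of_nonneg_left h16 (mul_nonneg (by norm_num) he0)
      rw [h18] at h20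
      rw [h11]
      have h23 : 0 < V * 2 ^ (2 * d + 1) := by positivity
      linarith
    exact_mod_cast h12

/-- **One family of functions for all parameters.** -/
theorem list_family (β : ℕ → ℕ) (hβ : Filter.Tendsto β Filter.atTop Filter.atTop) :
    ∃ F : ∀ n, Pt n → Bool, ∀ k c : ℕ, 1 ≤ c → ∃ N, ∀ n ≥ N,
      OnePassPP n (β n) (F n) ∧ NoList n k (β n) c (F n) := by
  obtain ⟨F, hF⟩ := diag (α := fun n => Pt n → Bool)
    (fun p n f => 1 ≤ β n ∧ OnePassPP n (β n) f ∧ NoList n p (β n) (p + 1) f) (by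
      intro p
      obtain ⟨D, hD, h⟩ := list_core p (p + 1) (by omega)
      obtain ⟨N, hN⟩ := Filter.eventually_atTop.1 (hβ.eventually_ge_atTop D)
      refine ⟨N + D, fun n hn => ?_⟩
      obtain ⟨f, hf1, hf2⟩ := h n (by omega)
      have h1 : D ≤ β n := hN n (by omega)
      exact ⟨f, hD.trans h1, onePassPP_mono h1 hf1,
        noList_mono le_rfl h1 hD le_rfl (by omega) hf2⟩)
    (fun p p' n hn f hp h => ⟨h.1, h.2.1,
      noList_mono hp le_rfl h.1 (by omega) (by omega) h.2.2⟩)
  refine ⟨F, fun k c hc => ?_⟩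
  obtain ⟨N, hN⟩ := hF (k + c)
  exact ⟨N, fun n hn => ⟨(hN n hn).2.1, noList_mono (by omega) le_rfl (hN n hn).1 (by omega) hc
    (hN n hn).2.2⟩⟩

end Pool.Agent.W895.BC
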