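import Pool.Agent.W895.BC.Flip
import Pool.Agent.W895.LT.Family

/-!
# Co-nondeterminism in one pass against gap predicates in time `k n`
-/

set_option autoImplicit false

open Finset

namespace Pool.Agent.W895.BC

open Pool.Agent.H554R2.Sem Pool.Agent.H554R2.Coin Pool.Agent.H554R2.Rnd
open Pool.Agent.W895.LT (Comparison AccIn conj card_acc_le diag)

/-- `f` is computed by a one-pass co-nondeterministic program: `f x = true` if and only if all of
the `J ≤ D` programs accept. -/
def OnePassCoNP (n D : ℕ) (f : Pt n → Bool) : Prop :=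
  ∃ (J : ℕ) (V : Fin J → BP (Fin n) Bool), J ≤ D ∧
    (∀ j, Fintype.card (V j).State ≤ D * n ∧
      ∃ l : List (Fin n), l.Nodup ∧ ∀ x : Pt n, ∃ b, (V j).Comp x l b) ∧
    ∀ x, f x = true ↔ ∀ j, ∃ l, (V j).Comp x l true

/-- `f` is not given by a threshold with a gap. -/
def NoSBP (n k q D : ℕ) (f : Pt n → Bool) : Prop :=
  ∀ τ ≤ k * n, ∀ (I : ℕ) (b : ℝ) (P : Fin I → BP (Fin n) Bool), 0 < b →
    (I : ℝ) ≤ b * 2 ^ (n / D) → (∀ ω, Fintype.card (P ω).State ≤ 2 ^ (n / D)) →
    ∃ x, (f x = true ∧ q * Nat.card {ω // AccIn (P ω) τ x} < (q + 1) * b) ∨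
      (f x = false ∧ b < Nat.card {ω // AccIn (P ω) τ x})

/-- the zero pattern against the patterns with one `true` -/
theorem cmp_zero {D0 L : ℕ} (hD : 2 * L + 2 ≤ D0) :
    Comparison L ({fun _ => false} : Finset (Fin D0 → Bool))
      (fun z => if wt z = 1 then 2 / (D0 : ℝ) else 0) := by
  classical
  intro U F hU h0 hF
  have h1 := flip_cmp U F h0 hF {fun _ => false} (univ.filter (fun z => wt z = 1)) (D0 - L) 1
    (by
      intro z hz
      rw [Finset.mem_singleton] at hz
      subst hz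
      have e : ∀ j : Fin D0, wt (flip j (fun _ => false)) = 1 := by
        intro j
        rw [wt_flip_false rfl]
        simp [wt]
      have h2 : (univ.filter (fun j : Fin D0 => j ∉ U)).card + U.card = D0 := by
        have h3 := Finset.card_filter_add_card_filter_not (s := (univ : Finset (Fin D0)))
          (fun j => j ∉ U)
        rw [Finset.card_univ, Fintype.card_fin] at h3
        simpa using h3
      have h3 : univ.filter (fun j : Fin D0 => j ∉ U ∧
          flip j (fun _ => false) ∈ univ.filter (fun z : Fin D0 → Bool => wt z = 1)) =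
          univ.filter (fun j : Fin D0 => j ∉ U) := by
        apply Finset.filter_congr
        intro j _
        simp [e]
      rw [h3]
      omega)
    (by
      intro z hz
      have hz1 : wt z = 1 := (Finset.mem_filter.1 hz).2
      rw [← hz1]
      unfold wt
      apply Finset.card_le_card
      intro j hj
      rw [Finset.mem_filter] at hj ⊢
      refine ⟨hj.1, ?_⟩
      have h2 := Finset.mem_singleton.1 hj.2.2
      have h3 := congrFun h2 j
      rw [flip_self] at h3
      simpa using h3)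
  have e : ∑ z, (if wt z = 1 then 2 / (D0 : ℝ) else 0) * F z =
      2 / D0 * ∑ z ∈ univ.filter (fun z : Fin D0 → Bool => wt z = 1), F z := by
    simp only [ite_mul, zero_mul]
    rw [← Finset.sum_filter, Finset.mul_sum]
  rw [e]
  have hD0 : (0 : ℝ) < D0 := by
    have : 0 < D0 := by omega
    exact_mod_cast this
  have hm : (D0 : ℝ) / 2 ≤ ((D0 - L : ℕ) : ℝ) := by
    have h2 : D0 ≤ 2 * (D0 - L) := by omega
    have h3 : (D0 : ℝ) ≤ 2 * ((D0 - L : ℕ) : ℝ) := by exact_mod_cast h2
    linarith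
  have hS : 0 ≤ ∑ z ∈ ({fun _ => false} : Finset (Fin D0 → Bool)), F z :=
    Finset.sum_nonneg fun z _ => h0 z
  have h2 := (mul_le_mul_of_nonneg_right hm hS).trans h1
  rw [Nat.cast_one, one_mul] at h2
  rw [div_mul_eq_mul_div, le_div_iff₀ hD0]
  linarith

/-- fixed parameters -/
theorem one_core (k q : ℕ) (hq : 1 ≤ q) : ∃ D : ℕ, 1 ≤ D ∧ ∀ n ≥ D, ∃ f : Pt n → Bool,
    OnePassCoNP n D f ∧ NoSBP n k q D f := by
  classical
  obtain ⟨ρ, hρ1, hρ⟩ := exists_rho k 1 1 q hq
  obtain ⟨t, ht⟩ : ∃ t, t = 1 * (2 * ρ) := ⟨_, rfl⟩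
  obtain ⟨K, hK⟩ : ∃ K : ℕ, K = t * k + 1 := ⟨_, rfl⟩
  rw [← ht, ← hK] at hρ
  obtain ⟨L, hL⟩ := base K (by omega)
  obtain ⟨D0, hD0⟩ : ∃ D0, D0 = 2 * L + 2 := ⟨_, rfl⟩
  obtain ⟨C, hC, hbase⟩ := hL D0
  obtain ⟨N1, hN1⟩ := exp_large (2 * C) (by omega) (4 ^ (t + 1) * (k + 4))
  obtain ⟨N2, hN2⟩ := exp_large (2 * C) (by omega) (4 * 4)
  obtain ⟨D, hD⟩ : ∃ D : ℕ, D = C + N1 + N2 + 2 * C * (t + 1) + D0 := ⟨_, rfl⟩
  have hDC : C ≤ D := by omega
  refine ⟨D, by omega, fun n hn => ?_⟩
  obtain ⟨p, hp⟩ := hbase n (by omega)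
  obtain ⟨V, hV⟩ : ∃ V : ℝ, V = (2 : ℝ) ^ n / 2 ^ D0 := ⟨_, rfl⟩
  have hV0 : 0 < V := by rw [hV]; positivity
  refine ⟨fun x => decide (∀ j, p x j = false), ?_, ?_⟩
  · -- the programs with the negated outputs
    choose P l hP1 hP2 hP3 using hp.prog
    let neg : BP (Fin n) Bool → BP (Fin n) Bool := fun Q =>
      ⟨Q.State, Q.start, fun s => match Q.node s with
        | Sum.inl a => Sum.inl a
        | Sum.inr b => Sum.inr (!b)⟩
    have hwalk : ∀ (Q : BP (Fin n) Bool) (x : Pt n) (l : List (Fin n)) (u v : Q.State),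
        Q.Walk x u l v → (neg Q).Walk x u l v := by
      intro Q x l
      induction l with
      | nil => exact fun u v h => h
      | cons i l ih =>
        rintro u v ⟨nxt, h1, h2⟩
        refine ⟨nxt, ?_, ih _ _ h2⟩
        show (match Q.node u with
          | Sum.inl a => Sum.inl a
          | Sum.inr b => Sum.inr (!b)) = Sum.inl (i, nxt)
        rw [h1]
    have hcomp : ∀ (Q : BP (Fin n) Bool) (x : Pt n) (l : List (Fin n)) (b : Bool),
        Q.Comp x l b → (neg Q).Comp x l (!b) := by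
      rintro Q x l b ⟨v, h1, h2⟩
      refine ⟨v, hwalk Q x l _ _ h1, ?_⟩
      show (match Q.node v with
          | Sum.inl a => Sum.inl a
          | Sum.inr b => Sum.inr (!b)) = Sum.inr (!b)
      rw [h2]
    refine ⟨D0, fun j => neg (P j), by omega, fun j => ⟨?_, l j, hP2 j, fun x =>
      ⟨_, hcomp _ _ _ _ (hP3 j x)⟩⟩, fun x => ?_⟩
    · exact (hP1 j).trans (Nat.mul_le_mul_right n hDC)
    · rw [decide_eq_true_iff]
      apply forall_congr'
      intro j
      have h1 := hcomp _ _ _ _ (hP3 j x)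
      constructor
      · intro h2
        rw [h2] at h1
        exact ⟨_, h1⟩
      · rintro ⟨l', h2⟩
        have h3 := R25_comp_det _ x h1 h2
        simpa using h3
  · intro τ hτ I b P hb hIb hP
    by_contra hcon
    push Not at hcon
    obtain ⟨U, hU1, hU2, hU3⟩ := conj k t τ hτ P (2 ^ (n / D)) hP
    have hsize : ∀ ω, Fintype.card (U ω).State ≤ 2 ^ (n / C) := by
      intro ω
      refine (hU1 ω).trans ?_
      have h1 : 4 ^ (t + 1) * (k + 4) * (n + 1) ≤ 2 ^ (n / (2 * C)) := hN1 n (by omega)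
      have h2 : 1 ≤ 2 ^ (n / D) := Nat.one_le_two_pow
      have h6 : 2 ^ (n / D) ≤ 2 ^ (n / (2 * C)) :=
        Nat.pow_le_pow_right (by norm_num) (Nat.div_le_div_left (by
          rw [hD]
          have : 2 * C ≤ 2 * C * (t + 1) := Nat.le_mul_of_pos_right _ (by omega)
          omega) (by omega))
      have h7 : 2 ^ (n / (2 * C)) * 2 ^ (n / (2 * C)) ≤ 2 ^ (n / C) := by
        rw [← pow_add]
        apply Nat.pow_le_pow_right (by norm_num)
        rw [Nat.le_div_iff_mul_le (by omega)]
        have := Nat.mul_div_le n (2 * C)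
        nlinarith
      calc 4 ^ (t + 1) * (2 ^ (n / D) * (k * n + 2) + n + 3) ≤
          4 ^ (t + 1) * (2 ^ (n / D) * ((k + 4) * (n + 1))) := by
            apply Nat.mul_le_mul_left
            have h3 : (k + 4) * (n + 1) = k * n + k + 4 * n + 4 := by ring
            rw [h3]
            have h4 : 2 ^ (n / D) * (k * n + k + 4 * n + 4) =
              2 ^ (n / D) * (k * n + 2) + 2 ^ (n / D) * (k + 4 * n + 2) := by ring
            rw [h4]
            have h5 : k + 4 * n + 2 ≤ 2 ^ (n / D) * (k + 4 * n + 2) := Nat.le_mul_of_pos_left _ h2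
            omega
        _ = 2 ^ (n / D) * (4 ^ (t + 1) * (k + 4) * (n + 1)) := by ring
        _ ≤ 2 ^ (n / (2 * C)) * 2 ^ (n / (2 * C)) := Nat.mul_le_mul h6 h1
        _ ≤ _ := h7
    obtain ⟨N, hN⟩ : ∃ N : Pt n → ℕ, N = fun x => Nat.card {ω // AccIn (P ω) τ x} := ⟨_, rfl⟩
    have hN' : ∀ x, Nat.card {ω // AccIn (P ω) τ x} = N x := by
      intro x
      rw [hN]
    simp only [hN'] at hcon
    obtain ⟨β, hβ⟩ : ∃ β : (Fin D0 → Bool) → ℝ, β = fun z =>
      if wt z = 1 then 2 / (D0 : ℝ) else 0 := ⟨_, rfl⟩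
    have hβ0 : ∀ z, 0 ≤ β z := by
      intro z
      rw [hβ]
      dsimp only
      split_ifs
      · positivity
      · exact le_rfl
    have hcmp := cmp_zero (D0 := D0) (L := L) (by omega)
    rw [← hβ] at hcmp
    have hD0pos : (0 : ℝ) < D0 := by
      have : 0 < D0 := by omega
      exact_mod_cast this
    have hβ2 : ∑ z, β z ≤ 2 := by
      have h1 : (univ.filter (fun z : Fin D0 → Bool => wt z = 1)).card ≤ D0 := by
        have h2 : univ.filter (fun z : Fin D0 → Bool => wt z = 1) ⊆
            univ.image (fun j : Fin D0 => flip j (fun _ => false)) := by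
          intro z hz
          have hz1 : wt z = 1 := (Finset.mem_filter.1 hz).2
          unfold wt at hz1
          obtain ⟨j, hj⟩ := Finset.card_eq_one.1 hz1
          rw [Finset.mem_image]
          refine ⟨j, Finset.mem_univ _, ?_⟩
          funext i
          have h3 : i ∈ univ.filter (fun j => z j = true) ↔ i = j := by
            rw [hj, Finset.mem_singleton]
          rw [Finset.mem_filter] at h3
          by_cases hij : i = j
          · subst hij
            rw [flip_self]
            exact (h3.2 rfl).2.symm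
          · rw [flip_ne hij]
            cases hzi : z i
            · rfl
            · exact absurd (h3.1 ⟨Finset.mem_univ _, hzi⟩) hij
        refine (Finset.card_le_card h2).trans (Finset.card_image_le.trans ?_)
        rw [Finset.card_univ, Fintype.card_fin]
      rw [hβ, ← Finset.sum_filter, Finset.sum_const, nsmul_eq_mul, mul_div_assoc', div_le_iff₀ hD0pos]
      have h2 : ((univ.filter (fun z : Fin D0 → Bool => wt z = 1)).card : ℝ) ≤ D0 := by
        exact_mod_cast h1
      linarith
    obtain ⟨M, hM⟩ : ∃ M : ℝ, M = 8 * ((K : ℝ) + 1) ^ 2 := ⟨_, rfl⟩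
    have hM0 : 0 ≤ M := by rw [hM]; positivity
    have hone : ∀ ω : Fin t → Fin I, cnt p (U ω) (fun _ => false) ≤
        M * ∑ z, β z * cnt p (U ω) z + 4 * V / 2 ^ (n / C) := by
      intro ω
      have h1 := hp.comp {fun _ => false} β hβ0 hcmp (U ω) (hsize _)
        (fun x => by rw [hK]; exact hU2 _ x)
      rw [← hV, ← hM, Finset.sum_singleton, Finset.card_singleton] at h1
      refine h1.trans (add_le_add le_rfl ?_)
      apply div_le_div_of_nonneg_right _ (by positivity)
      apply mul_le_mul_of_nonneg_right _ hV0.le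
      push_cast
      linarith
    have hsum := Finset.sum_le_sum (s := (univ : Finset (Fin t → Fin I))) (fun ω _ => hone ω)
    rw [Finset.sum_add_distrib, ← Finset.mul_sum, Finset.sum_const,
      Finset.sum_comm (s := univ) (t := univ)] at hsum
    simp only [← Finset.mul_sum] at hsum
    have hdc : ∀ z, ∑ ω : Fin t → Fin I, cnt p (U ω) z =
        ∑ x ∈ univ.filter (fun x => p x = z), (N x : ℝ) ^ t := by
      intro z
      have e1 : ∀ ω : Fin t → Fin I, cnt p (U ω) z =
          ∑ x ∈ univ.filter (fun x => p x = z),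
            if (∀ j, AccIn (P (ω j)) τ x) then (1 : ℝ) else 0 := by
        intro ω
        rw [Finset.sum_boole, Finset.filter_filter]
        unfold cnt
        congr 2
        ext x
        simp only [mem_filter, mem_univ, true_and]
        rw [hU3, and_comm]
      simp only [e1]
      rw [Finset.sum_comm]
      refine Finset.sum_congr rfl fun x _ => ?_
      rw [Finset.sum_boole]
      have e2 := card_acc_le P τ x t
      rw [Nat.card_eq_fintype_card, Fintype.card_subtype] at e2
      rw [e2, hN]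
      push_cast
      rfl
    simp only [hdc] at hsum
    rw [Finset.card_univ, Fintype.card_fun, Fintype.card_fin, Fintype.card_fin, nsmul_eq_mul] at hsum
    -- the inputs with the zero pattern
    have hlow : 3 / 4 * V * ((1 + 1 / (q : ℝ)) ^ t * b ^ t) ≤
        ∑ x ∈ univ.filter (fun x => p x = fun _ => false), (N x : ℝ) ^ t := by
      have hq0 : (0 : ℝ) < q := by exact_mod_cast hq
      have h1 : ∀ x ∈ univ.filter (fun x => p x = fun _ => false),
          (1 + 1 / (q : ℝ)) ^ t * b ^ t ≤ (N x : ℝ) ^ t := by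
        intro x hx
        have h2 := (hcon x).1 (by
          rw [decide_eq_true_iff, (Finset.mem_filter.1 hx).2]
          exact fun _ => rfl)
        rw [← mul_pow]
        apply pow_le_pow_left₀ (by positivity)
        have e : (q + 1) * b = q * ((1 + 1 / (q : ℝ)) * b) := by field_simp
        rw [e] at h2
        exact le_of_mul_le_mul_left h2 hq0
      have h2 := Finset.card_nsmul_le_sum _ _ _ h1
      rw [nsmul_eq_mul] at h2
      refine le_trans (mul_le_mul_of_nonneg_right ?_ (by positivity)) h2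
      have h3 := hp.low (fun _ => false)
      rw [← hV] at h3
      exact h3
    -- the inputs with one form equal to one
    have hup : ∑ z, β z * ∑ x ∈ univ.filter (fun x => p x = z), (N x : ℝ) ^ t ≤
        5 / 2 * V * b ^ t := by
      have h3 : ∀ z, β z * ∑ x ∈ univ.filter (fun x => p x = z), (N x : ℝ) ^ t ≤
          β z * (5 / 4 * V * b ^ t) := by
        intro z
        by_cases hz : wt z = 1
        · apply mul_le_mul_of_nonneg_left _ (hβ0 z)
          have h4 : ∀ x ∈ univ.filter (fun x => p x = z), (N x : ℝ) ^ t ≤ b ^ t := by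
            intro x hx
            apply pow_le_pow_left₀ (Nat.cast_nonneg _)
            apply (hcon x).2
            rw [decide_eq_false_iff_not, (Finset.mem_filter.1 hx).2]
            intro h5
            have h6 : wt z = 0 := by
              unfold wt
              rw [Finset.card_eq_zero, Finset.filter_eq_empty_iff]
              intro j _
              rw [h5 j]
              simp
            omega
          have h5 := Finset.sum_le_card_nsmul _ _ _ h4
          rw [nsmul_eq_mul] at h5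
          refine h5.trans (mul_le_mul_of_nonneg_right ?_ (by positivity))
          have h6 := hp.high z
          rw [← hV] at h6
          exact h6
        · have h4 : β z = 0 := by
            rw [hβ]
            exact if_neg hz
          rw [h4, zero_mul, zero_mul]
      refine (Finset.sum_le_sum fun z _ => h3 z).trans ?_
      rw [← Finset.sum_mul]
      have h4 : 0 ≤ 5 / 4 * V * b ^ t := by positivity
      have h5 := mul_le_mul_of_nonneg_right hβ2 h4
      linarith
    have herr : ((I ^ t : ℕ) : ℝ) * (4 * V / 2 ^ (n / C)) ≤ V * b ^ t := by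
      have h1 : ((I ^ t : ℕ) : ℝ) ≤ b ^ t * (2 ^ (n / D)) ^ t := by
        push_cast
        rw [← mul_pow]
        exact pow_le_pow_left₀ (Nat.cast_nonneg _) hIb _
      have h6 : (2 ^ (n / D)) ^ t ≤ 2 ^ (n / (2 * C)) := by
        rw [← pow_mul]
        apply Nat.pow_le_pow_right (by norm_num)
        rw [Nat.le_div_iff_mul_le (by omega)]
        have h7 : 2 * C * (t + 1) * (n / D) ≤ n :=
          (Nat.mul_le_mul_right _ (by omega)).trans (Nat.mul_div_le n D)
        have h8 : n / D * t * (2 * C) ≤ 2 * C * (t + 1) * (n / D) := by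
          have e : 2 * C * (t + 1) * (n / D) = n / D * t * (2 * C) + 2 * C * (n / D) := by ring
          omega
        omega
      have h7 : 4 * 4 * (n + 1) ≤ 2 ^ (n / (2 * C)) := hN2 n (by omega)
      have h8 : 4 ≤ 2 ^ (n / (2 * C)) := by omega
      have h9 : 2 ^ (n / (2 * C)) * 2 ^ (n / (2 * C)) ≤ 2 ^ (n / C) := by
        rw [← pow_add]
        apply Nat.pow_le_pow_right (by norm_num)
        rw [Nat.le_div_iff_mul_le (by omega)]
        have := Nat.mul_div_le n (2 * C)
        nlinarith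
      have h10 : (2 ^ (n / D)) ^ t * 4 ≤ 2 ^ (n / C) := (Nat.mul_le_mul h6 h8).trans h9
      have h11 : ((2 : ℝ) ^ (n / D)) ^ t * 4 ≤ 2 ^ (n / C) := by exact_mod_cast h10
      have h12 : (0 : ℝ) < 2 ^ (n / C) := by positivity
      have hbt : 0 < b ^ t := by positivity
      rw [mul_div_assoc', div_le_iff₀ h12]
      calc ((I ^ t : ℕ) : ℝ) * (4 * V) ≤ (b ^ t * (2 ^ (n / D)) ^ t) * (4 * V) :=
            mul_le_mul_of_nonneg_right h1 (by positivity)
        _ = (b ^ t * V) * ((2 ^ (n / D)) ^ t * 4) := by ring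
        _ ≤ (b ^ t * V) * 2 ^ (n / C) := mul_le_mul_of_nonneg_left h11 (by positivity)
        _ = V * b ^ t * 2 ^ (n / C) := by ring
    have hfin : 3 / 4 * V * ((1 + 1 / (q : ℝ)) ^ t * b ^ t) ≤
        M * (5 / 2 * V * b ^ t) + V * b ^ t := by
      have h1 := mul_le_mul_of_nonneg_left hup hM0
      linarith
    have hbt : 0 < V * b ^ t := by positivity
    have hbig : 4 * M + 4 ≤ (1 + 1 / (q : ℝ)) ^ t := by
      have h1 : 2 * (1 + M) ≤ (1 + 1 / (q : ℝ)) ^ ρ := by
        rw [hM]
        have : 2 * ((1 + 8 * ((K : ℝ) + 1) ^ 2 * ((1 : ℕ) : ℝ)) * ((1 : ℕ) : ℝ)) ≤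
            (1 + 1 / (q : ℝ)) ^ ρ := hρ
        push_cast at this
        linarith
      have h2 : (1 + 1 / (q : ℝ)) ^ t = (1 + 1 / (q : ℝ)) ^ ρ * (1 + 1 / (q : ℝ)) ^ ρ := by
        rw [ht, ← pow_add]
        congr 1
        ring
      rw [h2]
      nlinarith
    have h1 : 3 / 4 * V * ((1 + 1 / (q : ℝ)) ^ t * b ^ t) =
        3 / 4 * (1 + 1 / (q : ℝ)) ^ t * (V * b ^ t) := by ring
    have h2 : M * (5 / 2 * V * b ^ t) + V * b ^ t = (5 / 2 * M + 1) * (V * b ^ t) := by ring
    rw [h1, h2] at hfin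
    have h3 := le_of_mul_le_mul_right hfin hbt
    linarith

theorem onePassCoNP_mono {n D D' : ℕ} (hD : D' ≤ D) {f : Pt n → Bool} (h : OnePassCoNP n D' f) :
    OnePassCoNP n D f := by
  obtain ⟨J, V, h1, h2, h3⟩ := h
  exact ⟨J, V, h1.trans hD, fun j => ⟨(h2 j).1.trans (Nat.mul_le_mul_right n hD), (h2 j).2⟩, h3⟩

theorem noSBP_mono {n k k' q q' D D' : ℕ} (hk : k ≤ k') (hq : q ≤ q') (hD : D' ≤ D)
    (hD1 : 1 ≤ D') {f : Pt n → Bool} (h : NoSBP n k' q' D' f) : NoSBP n k q D f := by
  intro τ hτ I b P hb hI hP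
  have hpow : 2 ^ (n / D) ≤ 2 ^ (n / D') :=
    Nat.pow_le_pow_right (by norm_num) (Nat.div_le_div_left hD (by omega))
  obtain ⟨x, hx⟩ := h τ (hτ.trans (Nat.mul_le_mul_right n hk)) I b P hb (hI.trans (by
    apply mul_le_mul_of_nonneg_left _ hb.le
    exact_mod_cast hpow)) (fun ω => (hP ω).trans hpow)
  have hqr : (q : ℝ) ≤ q' := by exact_mod_cast hq
  by_cases h1 : b < (Nat.card {ω // AccIn (P ω) τ x} : ℝ)
  · rcases hx with ⟨h2, h3⟩ | ⟨h2, h3⟩
    · exact ⟨x, Or.inl ⟨h2, by nlinarith⟩⟩
    · exact ⟨x, Or.inr ⟨h2, h3⟩⟩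
  · rcases hx with ⟨h2, h3⟩ | ⟨h2, h3⟩
    · refine ⟨x, Or.inl ⟨h2, ?_⟩⟩
      rw [not_lt] at h1
      have : (0 : ℝ) ≤ q := Nat.cast_nonneg _
      nlinarith
    · exact absurd h3 h1

/-- **One family of functions for all parameters.** -/
theorem one_family (β : ℕ → ℕ) (hβ : Filter.Tendsto β Filter.atTop Filter.atTop) :
    ∃ F : ∀ n, Pt n → Bool, ∀ k q : ℕ, ∃ N, ∀ n ≥ N,
      OnePassCoNP n (β n) (F n) ∧ NoSBP n k q (β n) (F n) := by
  obtain ⟨F, hF⟩ := diag (α := fun n => Pt n → Bool)
    (fun p n f => 1 ≤ β n ∧ OnePassCoNP n (β n) f ∧ NoSBP n p (p + 1) (β n) f) (by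
      intro p
      obtain ⟨D, hD, h⟩ := one_core p (p + 1) (by omega)
      obtain ⟨N, hN⟩ := Filter.eventually_atTop.1 (hβ.eventually_ge_atTop D)
      refine ⟨N + D, fun n hn => ?_⟩
      obtain ⟨f, hf1, hf2⟩ := h n (by omega)
      have h1 : D ≤ β n := hN n (by omega)
      exact ⟨f, hD.trans h1, onePassCoNP_mono h1 hf1, noSBP_mono le_rfl le_rfl h1 hD hf2⟩)
    (fun p p' n hn f hp h => ⟨h.1, h.2.1, noSBP_mono hp (by omega) le_rfl h.1 h.2.2⟩)
  refine ⟨F, fun k q => ?_⟩
  obtain ⟨N, hN⟩ := hF (k + q)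
  refine ⟨N, fun n hn => ?_⟩
  have h := hN n hn
  exact ⟨h.2.1, noSBP_mono (by omega) (by omega) le_rfl h.1 h.2.2⟩

end Pool.Agent.W895.BC
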