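import Pool.Agent.W895.BC.Bent
import Pool.Agent.W895.BC.Mono
import Pool.Agent.W895.LT.Family
import Pool.Agent.H554R2.Qua.Pass
import Pool.Agent.H554R2.Qua.Unitary
import Pool.Agent.H554R2.Qua.QProg

/-!
# Exact quantum programs against Boolean combinations of gap predicates in time `k n`
-/

set_option autoImplicit false

open Finset

namespace Pool.Agent.W895.BC

open Pool.Agent.H554R2.Sem Pool.Agent.H554R2.Coin Pool.Agent.H554R2.Rnd Pool.Agent.H554R2.Qua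
open Pool.Agent.W895.LT (AccIn diag)

/-- A quantum program with `D n` basis states and `2 n + 2` queries separates `Y true` from
`Y false` without error. -/
def ExactQ (n D : ℕ) (Y : Bool → Set (Pt n)) : Prop :=
  ∃ Q : QBP n, Fintype.card Q.State ≤ D * n ∧ Q.len ≤ 2 * n + 2 ∧
    (∀ x ∈ Y true, Q.prob x = 1) ∧ ∀ x ∈ Y false, Q.prob x = 0

theorem exactQ_mono {n D D' : ℕ} (hD : D' ≤ D) {Y : Bool → Set (Pt n)} (h : ExactQ n D' Y) :
    ExactQ n D Y := by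
  obtain ⟨Q, h1, h2⟩ := h
  exact ⟨Q, h1.trans (Nat.mul_le_mul_right n hD), h2⟩

/-- fixed parameters -/
theorem qu_core (k s q : ℕ) (hq : 1 ≤ q) : ∃ D : ℕ, 1 ≤ D ∧ ∀ n ≥ D,
    ∃ Y : Bool → Set (Pt n), ExactQ n D Y ∧ NoComb n k s q D Y := by
  classical
  obtain ⟨L, hL⟩ := core k s 2 q hq
  obtain ⟨p, hp⟩ : ∃ p, p = L + 2 := ⟨_, rfl⟩
  obtain ⟨D1, hD1, h1⟩ := hL (4 ^ p)
  obtain ⟨D, hD⟩ : ∃ D, D = 4 ^ p * (2 * D1) := ⟨_, rfl⟩
  have h4p : 1 ≤ 4 ^ p := Nat.one_le_pow _ _ (by norm_num)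
  have hDD : 2 * D1 ≤ D := by
    rw [hD]
    exact Nat.le_mul_of_pos_left _ h4p
  refine ⟨D, by omega, fun n hn => ?_⟩
  have hn0 : 1 ≤ n := by omega
  obtain ⟨f, -, ⟨G, π, h, hf1, hf2⟩, -, hf3⟩ := h1 n (by omega)
  have hcardY : Fintype.card (Y p) = 4 ^ p := by
    rw [Fintype.card_prod, Fintype.card_fun, Fintype.card_bool, Fintype.card_fin, ← pow_add,
      ← two_mul, pow_mul]
    norm_num
  obtain ⟨E⟩ : Nonempty (Y p ≃ Fin (4 ^ p)) := ⟨Fintype.equivFinOfCardEq hcardY⟩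
  refine ⟨fun v => {x | f x ∈ ipY E v}, ?_, noComb_D (by omega : D1 ≤ D) hD1
    (hf3 (ipY E) (two_ip (L := L) E (by omega)))⟩
  -- the quantum program
  obtain ⟨X, hX⟩ : ∃ X : ℕ, X = 2 * D1 * n := ⟨_, rfl⟩
  obtain ⟨w, hw⟩ : ∃ w : ℕ, w = Nat.log 2 X := ⟨_, rfl⟩
  have hX2 : 2 ≤ X := by
    rw [hX]
    nlinarith
  have hw0 : 0 < w := by
    rw [hw]
    exact Nat.log_pos (by norm_num) hX2
  have hwX : 2 ^ w ≤ X := by
    rw [hw]
    exact Nat.pow_log_le_self 2 (by omega)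
  have hgr : ∀ j g, (univ.filter (fun v => π j v = g)).card ≤ w := by
    intro j g
    rw [hw]
    apply Nat.le_log_of_pow_le (by norm_num)
    have h2 : 2 ^ (univ.filter (fun v => π j v = g)).card ≤ D1 * n :=
      le_trans (Finset.single_le_sum
        (f := fun g => 2 ^ (univ.filter (fun v => π j v = g)).card)
        (fun _ _ => Nat.zero_le _) (mem_univ g)) (hf2 j)
    rw [hX]
    nlinarith
  choose Ls hLs using fun y : Y p => pass hn0 hw0 (π (E y)) (h (E y)) (hgr (E y))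
  obtain ⟨Qp, hQ1, hQ2, hQ3⟩ := qprog (T := 2 * n) Ls (fun t x s₁ s₂ => qamp_wf Ls (2 * n) t x s₁ s₂)
  have hmem : ∀ v x, f x ∈ ipY E v → ∃ a : Y p, (∀ y, qr (π (E y)) (h (E y)) x = dotY a y) ∧
      dot a.1 a.2 = v := by
    intro v x hx
    obtain ⟨a, ha, ha2⟩ := Finset.mem_image.1 hx
    refine ⟨a, fun y => ?_, (Finset.mem_filter.1 ha).2⟩
    rw [← hf1, ← ha2]
    unfold zv
    rw [Equiv.symm_apply_apply]
  refine ⟨Qp, ?_, by rw [hQ2], ?_, ?_⟩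
  · rw [hQ1]
    calc 4 ^ p * 2 ^ w ≤ 4 ^ p * X := Nat.mul_le_mul_left _ hwX
      _ = D * n := by rw [hX, hD]; ring
  · intro x hx
    obtain ⟨a, ha1, ha2⟩ := hmem true x hx
    rw [hQ3 x a (fun y => by rw [hLs y x, ha1 y]), if_pos ha2]
  · intro x hx
    obtain ⟨a, ha1, ha2⟩ := hmem false x hx
    rw [hQ3 x a (fun y => by rw [hLs y x, ha1 y]), if_neg (by rw [ha2]; simp)]

/-- **One family of promise problems for all parameters.** -/
theorem qu_family (β : ℕ → ℕ) (hβ : Filter.Tendsto β Filter.atTop Filter.atTop) :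
    ∃ F : ∀ n, Bool → Set (Pt n), ∀ k s q : ℕ, ∃ N, ∀ n ≥ N,
      ExactQ n (β n) (F n) ∧ NoComb n k s q (β n) (F n) := by
  obtain ⟨F, hF⟩ := diag (α := fun n => Bool → Set (Pt n))
    (fun p n f => 1 ≤ β n ∧ ExactQ n (β n) f ∧ NoComb n p p (p + 1) (β n) f) (by
      intro p
      obtain ⟨D, hD, h⟩ := qu_core p p (p + 1) (by omega)
      obtain ⟨N, hN⟩ := Filter.eventually_atTop.1 (hβ.eventually_ge_atTop D)
      refine ⟨N + D, fun n hn => ?_⟩
      obtain ⟨f, hf1, hf2⟩ := h n (by omega)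
      have h1 : D ≤ β n := hN n (by omega)
      exact ⟨f, hD.trans h1, exactQ_mono h1 hf1, noComb_D h1 hD hf2⟩)
    (fun p p' n hn f hp h => ⟨h.1, h.2.1, noComb_mono hp hp (by omega) le_rfl h.1
      (fun _ => subset_rfl) h.2.2⟩)
  refine ⟨F, fun k s q => ?_⟩
  obtain ⟨N, hN⟩ := hF (k + s + q)
  refine ⟨N, fun n hn => ?_⟩
  have h := hN n hn
  exact ⟨h.2.1, noComb_mono (by omega) (by omega) (by omega) le_rfl h.1
    (fun _ => subset_rfl) h.2.2⟩

end Pool.Agent.W895.BC
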